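import Pool.Agent.N366.CC.Stg
import Pool.Agent.N366.CC.Data

set_option autoImplicit false

namespace Pool.Agent.N366.CC

theorem stgs_dfs : dfs stgs 1 0 5 = true := by decide +kernel

theorem stgs_wf : wf stgs 1 = true := by decide +kernel

theorem stgs_len : stgs.length = 189 := by decide +kernel

/-- the edges, larger end second -/
def E : List (ℕ × ℕ) := (List.finRange 190).flatMap fun v =>
  ((List.finRange 3).filter fun k => (nb v k).val < v.val).map fun k => ((nb v k).val, v.val)

theorem stgs_perm : (news stgs 1).Perm (E ++ lifts stgs) := by decide +kernel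

theorem stgs_ch : ∀ s ∈ stgs, ∀ q ∈ s.2.2, q.2.1 < 190 ∧ ∃ k k' : Fin 3, k ≠ k' ∧
    (nb (mk q.2.1) k).val = q.1 ∧ (nb (mk q.2.1) k').val = q.2.2 := by decide +kernel

theorem nb_symm : ∀ v k, ∃ k', nb (nb v k) k' = v := by decide +kernel

theorem nb_ne : ∀ v k, nb v k ≠ v := by decide +kernel

theorem nb_inj : ∀ v k k', nb v k = nb v k' → k = k' := by decide +kernel

/-- no non-backtracking continuation of `…, p, w` by at most `n` steps meets `v` -/
def gok : ℕ → Fin 190 → Fin 190 → Fin 190 → Bool
  | 0, _, _, _ => true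
  | n + 1, v, p, w => (List.finRange 3).all fun k =>
      decide (nb w k = p) || (decide (nb w k ≠ v) && gok n v w (nb w k))

theorem gok_ok : ∀ v k, gok 4 v v (nb v k) = true := by decide +kernel

end Pool.Agent.N366.CC
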