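import Pool.Agent.N366.CC.Cut6

set_option autoImplicit false

namespace Pool.Agent.N366.CC

/-! ### colours -/

abbrev K := ZMod 2 × ZMod 2

def em (c : Fin 3) : K := if c = 0 then (0, 1) else if c = 1 then (1, 0) else (1, 1)

theorem em_ne : ∀ c, em c ≠ 0 := by decide
theorem em_sum : ∀ a b c : Fin 3, a ≠ b → a ≠ c → b ≠ c → em a + em b + em c = 0 := by decide

def code (x : K) : ℕ := 2 * x.1.val + x.2.val

theorem code_add : ∀ a b : K, code (a + b) = Nat.xor (code a) (code b) := by decide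
theorem code_mem : ∀ a : K, a ≠ 0 → code a ∈ [1, 2, 3] := by decide
theorem code_zero : ∀ a : K, code a = 0 → a = 0 := by decide
theorem two_zero : (2 : K) = 0 := by decide

structure Colr (C : Fin 190 → Fin 190 → K) : Prop where
  symm : ∀ v w, C v w = C w v
  ne : ∀ v w, C v w ≠ 0
  sum : ∀ v, C v (nb v 0) + C v (nb v 1) + C v (nb v 2) = 0

/-! ### the blocks -/

def sg (l : Fin 6) : Fin 6 := (![5, 4, 1, 0, 3, 2] : Fin 6 → Fin 6) l
def sg' (l : Fin 6) : Fin 6 := (![3, 2, 5, 4, 1, 0] : Fin 6 → Fin 6) l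

theorem sg'_sg : ∀ l, sg' (sg l) = l := by decide
theorem sg_sg' : ∀ l, sg (sg' l) = l := by decide

def RR (l : Fin 6) (p : ℕ × ℕ) : Fin 190 :=
  match p.1 with
  | 0 => B l p.2
  | 1 => B (sg l) p.2
  | 2 => B (sg' l) p.2
  | _ => iv 1 (l.val / 2)

def Rl : List (List (ℕ × ℕ)) := [[], 
  [(0, 2), (0, 3), (3, 0)],
  [(0, 1), (0, 4), (0, 5)],
  [(0, 1), (0, 6), (0, 7)],
  [(0, 2), (0, 8), (0, 9)],
  [(0, 2), (0, 10), (0, 11)],
  [(0, 3), (0, 12), (0, 13)],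
  [(0, 3), (0, 14), (0, 15)],
  [(0, 4), (0, 16), (0, 17)],
  [(0, 4), (0, 18), (0, 19)],
  [(0, 5), (0, 20), (0, 21)],
  [(0, 5), (0, 22), (0, 23)],
  [(0, 6), (0, 24), (0, 25)],
  [(0, 6), (0, 26), (0, 27)],
  [(0, 7), (0, 28), (0, 29)],
  [(0, 7), (0, 30), (0, 31)],
  [(0, 8), (0, 25), (1, 28)],
  [(0, 8), (0, 20), (0, 27)],
  [(0, 9), (0, 20), (1, 29)],
  [(0, 9), (0, 21), (0, 23)],
  [(0, 10), (0, 17), (0, 18)],
  [(0, 10), (0, 19), (1, 31)],
  [(0, 11), (0, 25), (1, 31)],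
  [(0, 11), (0, 19), (0, 27)],
  [(0, 12), (0, 28), (0, 30)],
  [(0, 12), (0, 16), (0, 22)],
  [(0, 13), (0, 29), (0, 30)],
  [(0, 13), (0, 17), (0, 23)],
  [(0, 14), (0, 24), (2, 16)],
  [(0, 14), (0, 26), (2, 18)],
  [(0, 15), (0, 24), (0, 26)],
  [(0, 15), (2, 21), (2, 22)]]

def Rf (h : ℕ) (k : Fin 3) : ℕ × ℕ := (Rl.getD h []).getD k.val (0, 0)

theorem nb_B : ∀ l : Fin 6, ∀ h ∈ List.range 32, h ≠ 0 → ∀ k, nb (B l h) k = RR l (Rf h k) := by
  decide +kernel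

/-- the edges of the piece `N` -/
def en : List ((ℕ × ℕ) × (ℕ × ℕ)) := [
  ((0, 1), (0, 2)),
  ((0, 12), (0, 25)),
  ((0, 13), (0, 27)),
  ((0, 2), (0, 5)),
  ((0, 2), (0, 4)),
  ((0, 4), (0, 9)),
  ((0, 4), (0, 8)),
  ((0, 9), (0, 18)),
  ((0, 9), (0, 19)),
  ((0, 19), (0, 21)),
  ((0, 19), (0, 23)),
  ((0, 23), (0, 27)),
  ((0, 11), (0, 23)),
  ((0, 17), (0, 27)),
  ((0, 5), (0, 11)),
  ((0, 5), (0, 10)),
  ((0, 11), (0, 22)),
  ((0, 10), (0, 21)),
  ((0, 10), (0, 20)),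
  ((0, 21), (1, 31)),
  ((0, 8), (0, 17)),
  ((0, 17), (0, 20)),
  ((0, 18), (0, 20)),
  ((0, 8), (0, 16)),
  ((0, 18), (1, 29)),
  ((0, 22), (0, 25)),
  ((0, 16), (0, 25)),
  ((0, 22), (1, 31)),
  ((0, 16), (1, 28)),
  ((1, 15), (1, 31))]

/-- the equations of the piece `N` -/
def Neqs : List ((ℕ × ℕ) × ℕ × ℕ × ℕ) := [
  ((0, 2), 0, 4, 3),
  ((0, 4), 4, 6, 5),
  ((0, 5), 3, 15, 14),
  ((0, 8), 6, 23, 20),
  ((0, 9), 5, 7, 8),
  ((0, 10), 15, 18, 17),
  ((0, 11), 14, 16, 12),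
  ((0, 16), 23, 26, 28),
  ((0, 17), 20, 21, 13),
  ((0, 18), 7, 22, 24),
  ((0, 19), 8, 9, 10),
  ((0, 20), 18, 21, 22),
  ((0, 21), 17, 9, 19),
  ((0, 22), 16, 25, 27),
  ((0, 23), 12, 10, 11),
  ((0, 25), 1, 26, 25),
  ((0, 27), 2, 13, 11),
  ((1, 31), 29, 19, 27)]

/-- the constraints of the search -/
def cons : List (List (ℕ × ℕ)) := [
  [],
  [],
  [(0, 1)],
  [],
  [(0, 3)],
  [],
  [(4, 5)],
  [],
  [(5, 7)],
  [],
  [(8, 9)],
  [],
  [(10, 11)],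
  [(2, 11)],
  [],
  [(3, 14)],
  [(12, 14)],
  [],
  [(15, 17)],
  [(9, 17)],
  [],
  [(13, 20)],
  [(18, 21)],
  [(6, 20)],
  [(7, 22)],
  [],
  [(1, 25)],
  [(16, 25)],
  [(23, 26)],
  [(19, 27)]]

def eL (j : ℕ) : ℕ × ℕ := (en.getD j ((0, 0), (0, 0))).1
def eR (j : ℕ) : ℕ × ℕ := (en.getD j ((0, 0), (0, 0))).2

def hx (l : Fin 6) (w : ℕ × ℕ) (j : ℕ) (k : Fin 3) : Prop :=
  (RR l (eL j) = RR l w ∧ RR l (eR j) = nb (RR l w) k) ∨
  (RR l (eR j) = RR l w ∧ RR l (eL j) = nb (RR l w) k)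

instance (l : Fin 6) (w : ℕ × ℕ) (j : ℕ) (k : Fin 3) : Decidable (hx l w j k) := by
  unfold hx; infer_instance

theorem Neqs_chk : ∀ l : Fin 6, ∀ t ∈ Neqs, hx l t.1 t.2.1 0 ∧ hx l t.1 t.2.2.1 1 ∧
    hx l t.1 t.2.2.2 2 := by decide +kernel

variable {C : Fin 190 → Fin 190 → K}

def y (C : Fin 190 → Fin 190 → K) (l : Fin 6) (j : ℕ) : K := C (RR l (eL j)) (RR l (eR j))

theorem y_hx (hC : Colr C) {l : Fin 6} {w : ℕ × ℕ} {j : ℕ} {k : Fin 3} (h : hx l w j k) :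
    y C l j = C (RR l w) (nb (RR l w) k) := by
  rcases h with h | h
  · rw [y, h.1, h.2]
  · rw [y, h.1, h.2, hC.symm]

theorem Neq (hC : Colr C) (l : Fin 6) : ∀ t ∈ Neqs, y C l t.2.1 + y C l t.2.2.1 +
    y C l t.2.2.2 = 0 := by
  intro t ht
  obtain ⟨h0, h1, h2⟩ := Neqs_chk l t ht
  rw [y_hx hC h0, y_hx hC h1, y_hx hC h2]
  exact hC.sum _

/-- the search for a colouring; `true` means that there is none -/
def crun : List (List (ℕ × ℕ)) → List ℕ → Bool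
  | [], _ => false
  | ck :: rest, ys => [1, 2, 3].all fun x =>
      (ck.any fun p => !(Nat.beq (Nat.xor (ys.getD p.1 0) (ys.getD p.2 0)) x)) ||
        crun rest (ys ++ [x])

theorem crun_ok : crun cons [] = true := by decide +kernel

theorem crun_sound (z : ℕ → ℕ) : ∀ (L : List (List (ℕ × ℕ))) (m : ℕ),
    (∀ k, k < L.length → z (m + k) ∈ [1, 2, 3]) →
    (∀ k, (hk : k < L.length) → ∀ p ∈ L[k], p.1 < m + k ∧ p.2 < m + k ∧
      Nat.xor (z p.1) (z p.2) = z (m + k)) →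
    crun L ((List.range m).map z) = true → False := by
  intro L
  induction L with
  | nil => intro m _ _ h; simp [crun] at h
  | cons ck rest ih =>
    intro m h1 h2 h
    simp only [crun, List.all_eq_true] at h
    have hx := h (z m) (h1 0 (by simp))
    rw [Bool.or_eq_true] at hx
    rcases hx with hx | hx
    · rw [List.any_eq_true] at hx
      obtain ⟨p, hp, hp2⟩ := hx
      obtain ⟨a1, a2, a3⟩ := h2 0 (by simp) p (by simpa using hp)
      rw [add_zero] at a1 a2 a3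
      have g1 : ((List.range m).map z).getD p.1 0 = z p.1 := by simp [List.getD, a1]
      have g2 : ((List.range m).map z).getD p.2 0 = z p.2 := by simp [List.getD, a2]
      rw [g1, g2, a3] at hp2
      have : Nat.beq (z m) (z m) = true := Nat.beq_refl (z m)
      rw [this] at hp2
      exact Bool.noConfusion hp2
    · have hY : (List.range m).map z ++ [z m] = (List.range (m + 1)).map z := by
        simp [List.range_succ]
      rw [hY] at hx
      refine ih (m + 1) (fun k hk => ?_) (fun k hk p hp => ?_) hx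
      · have := h1 (k + 1) (by simp; omega)
        rw [show m + 1 + k = m + (k + 1) from by omega]
        exact this
      · have := h2 (k + 1) (by simp; omega) p (by simpa using hp)
        rw [show m + 1 + k = m + (k + 1) from by omega]
        exact this

theorem cons_len : cons.length = 30 := by decide

theorem cons_chk : ∀ k, (hk : k < cons.length) → ∀ p ∈ cons[k], p.1 < k ∧ p.2 < k ∧
    ((p.1 = 0 ∧ p.2 = 1 ∧ k = 2) ∨ ∃ t ∈ Neqs, [t.2.1, t.2.2.1, t.2.2.2].Perm [p.1, p.2, k]) := by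
  decide +kernel

theorem xor_of (a b c : K) (h : a + b + c = 0) : Nat.xor (code a) (code b) = code c := by
  rw [← code_add]
  congr 1
  linear_combination h - c * two_zero

/-- the left sum of `N` -/
theorem X_ne (hC : Colr C) (l : Fin 6) : y C l 0 + y C l 1 + y C l 2 ≠ 0 := by
  intro h0
  refine crun_sound (fun j => code (y C l j)) cons 0 (fun k _ => code_mem _ (hC.ne _ _))
    (fun k hk p hp => ?_) crun_ok
  obtain ⟨h1, h2, h3⟩ := cons_chk k hk p hp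
  rw [zero_add]
  refine ⟨h1, h2, ?_⟩
  apply xor_of
  rcases h3 with ⟨e1, e2, e3⟩ | ⟨t, ht, hp⟩
  · rw [e1, e2, e3]
    exact h0
  · have h4 := Neq hC l t ht
    have h5 := (hp.map (y C l)).sum_eq
    simp only [List.map_cons, List.map_nil, List.sum_cons, List.sum_nil, add_zero,
      ← add_assoc] at h5
    rw [← h5]
    exact h4

theorem parity (hC : Colr C) (l : Fin 6) : y C l 0 + y C l 1 + y C l 2 =
    y C l 28 + y C l 24 + y C l 29 := by
  have h0 := Neq hC l ((0, 2), 0, 4, 3) (by decide)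
  have h1 := Neq hC l ((0, 4), 4, 6, 5) (by decide)
  have h2 := Neq hC l ((0, 5), 3, 15, 14) (by decide)
  have h3 := Neq hC l ((0, 8), 6, 23, 20) (by decide)
  have h4 := Neq hC l ((0, 9), 5, 7, 8) (by decide)
  have h5 := Neq hC l ((0, 10), 15, 18, 17) (by decide)
  have h6 := Neq hC l ((0, 11), 14, 16, 12) (by decide)
  have h7 := Neq hC l ((0, 16), 23, 26, 28) (by decide)
  have h8 := Neq hC l ((0, 17), 20, 21, 13) (by decide)
  have h9 := Neq hC l ((0, 18), 7, 22, 24) (by decide)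
  have h10 := Neq hC l ((0, 19), 8, 9, 10) (by decide)
  have h11 := Neq hC l ((0, 20), 18, 21, 22) (by decide)
  have h12 := Neq hC l ((0, 21), 17, 9, 19) (by decide)
  have h13 := Neq hC l ((0, 22), 16, 25, 27) (by decide)
  have h14 := Neq hC l ((0, 23), 12, 10, 11) (by decide)
  have h15 := Neq hC l ((0, 25), 1, 26, 25) (by decide)
  have h16 := Neq hC l ((0, 27), 2, 13, 11) (by decide)
  have h17 := Neq hC l ((1, 31), 29, 19, 27) (by decide)
  simp only at h0 h1 h2 h3 h4 h5 h6 h7 h8 h9 h10 h11 h12 h13 h14 h15 h16 h17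
  linear_combination h0 + h1 + h2 + h3 + h4 + h5 + h6 + h7 + h8 + h9 + h10 + h11 + h12 + h13 + h14 + h15 + h16 + h17 - (y C l 3 + y C l 4 + y C l 5 + y C l 6 + y C l 7 + y C l 8 + y C l 9 + y C l 10 + y C l 11 + y C l 12 + y C l 13 + y C l 14 + y C l 15 + y C l 16 + y C l 17 + y C l 18 + y C l 19 + y C l 20 + y C l 21 + y C l 22 + y C l 23 + y C l 25 + y C l 26 + y C l 27 + y C l 28 + y C l 24 + y C l 29) * two_zero

theorem eqB (hC : Colr C) (l : Fin 6) (h : ℕ) (hh : h ∈ List.range 32) (h0 : h ≠ 0) :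
    C (B l h) (RR l (Rf h 0)) + C (B l h) (RR l (Rf h 1)) + C (B l h) (RR l (Rf h 2)) = 0 := by
  rw [← nb_B l h hh h0, ← nb_B l h hh h0, ← nb_B l h hh h0]
  exact hC.sum _

theorem Aeq (hC : Colr C) (l : Fin 6) : C (B l 1) (iv 1 (l.val / 2)) +
    (C (B l 1) (B l 2) + C (B l 12) (B l 25) + C (B l 13) (B l 27)) +
    (C (B (sg' l) 16) (B l 28) + C (B (sg' l) 18) (B l 29) + C (B l 15) (B l 31)) = 0 := by
  have e1 : C (B l 1) (B l 2) + C (B l 1) (B l 3) + C (B l 1) (iv 1 (l.val / 2)) = 0 := by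
    exact eqB hC l 1 (by decide) (by decide)
  have e3 : C (B l 1) (B l 3) + C (B l 3) (B l 6) + C (B l 3) (B l 7) = 0 := by
    rw [hC.symm (B l 1) (B l 3)]
    exact eqB hC l 3 (by decide) (by decide)
  have e6 : C (B l 3) (B l 6) + C (B l 6) (B l 12) + C (B l 6) (B l 13) = 0 := by
    rw [hC.symm (B l 3) (B l 6)]
    exact eqB hC l 6 (by decide) (by decide)
  have e7 : C (B l 3) (B l 7) + C (B l 7) (B l 14) + C (B l 7) (B l 15) = 0 := by
    rw [hC.symm (B l 3) (B l 7)]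
    exact eqB hC l 7 (by decide) (by decide)
  have e12 : C (B l 6) (B l 12) + C (B l 12) (B l 24) + C (B l 12) (B l 25) = 0 := by
    rw [hC.symm (B l 6) (B l 12)]
    exact eqB hC l 12 (by decide) (by decide)
  have e13 : C (B l 6) (B l 13) + C (B l 13) (B l 26) + C (B l 13) (B l 27) = 0 := by
    rw [hC.symm (B l 6) (B l 13)]
    exact eqB hC l 13 (by decide) (by decide)
  have e14 : C (B l 7) (B l 14) + C (B l 14) (B l 28) + C (B l 14) (B l 29) = 0 := by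
    rw [hC.symm (B l 7) (B l 14)]
    exact eqB hC l 14 (by decide) (by decide)
  have e15 : C (B l 7) (B l 15) + C (B l 15) (B l 30) + C (B l 15) (B l 31) = 0 := by
    rw [hC.symm (B l 7) (B l 15)]
    exact eqB hC l 15 (by decide) (by decide)
  have e24 : C (B l 12) (B l 24) + C (B l 24) (B l 28) + C (B l 24) (B l 30) = 0 := by
    rw [hC.symm (B l 12) (B l 24)]
    exact eqB hC l 24 (by decide) (by decide)
  have e26 : C (B l 13) (B l 26) + C (B l 26) (B l 29) + C (B l 26) (B l 30) = 0 := by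
    rw [hC.symm (B l 13) (B l 26)]
    exact eqB hC l 26 (by decide) (by decide)
  have e28 : C (B l 14) (B l 28) + C (B l 24) (B l 28) + C (B (sg' l) 16) (B l 28) = 0 := by
    rw [hC.symm (B l 14) (B l 28)]
    rw [hC.symm (B l 24) (B l 28)]
    rw [hC.symm (B (sg' l) 16) (B l 28)]
    exact eqB hC l 28 (by decide) (by decide)
  have e29 : C (B l 14) (B l 29) + C (B l 26) (B l 29) + C (B (sg' l) 18) (B l 29) = 0 := by
    rw [hC.symm (B l 14) (B l 29)]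
    rw [hC.symm (B l 26) (B l 29)]
    rw [hC.symm (B (sg' l) 18) (B l 29)]
    exact eqB hC l 29 (by decide) (by decide)
  have e30 : C (B l 15) (B l 30) + C (B l 24) (B l 30) + C (B l 26) (B l 30) = 0 := by
    rw [hC.symm (B l 15) (B l 30)]
    rw [hC.symm (B l 24) (B l 30)]
    rw [hC.symm (B l 26) (B l 30)]
    exact eqB hC l 30 (by decide) (by decide)
  linear_combination e1 + e3 + e6 + e7 + e12 + e13 + e14 + e15 + e24 + e26 + e28 + e29 + e30 - (C (B l 1) (B l 3) + C (B l 3) (B l 6) + C (B l 3) (B l 7) + C (B l 6) (B l 12) + C (B l 6) (B l 13) + C (B l 7) (B l 14) + C (B l 7) (B l 15) + C (B l 12) (B l 24) + C (B l 13) (B l 26) + C (B l 14) (B l 28) + C (B l 14) (B l 29) + C (B l 15) (B l 30) + C (B l 24) (B l 28) + C (B l 24) (B l 30) + C (B l 26) (B l 29) + C (B l 26) (B l 30)) * two_zero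

theorem Ych : ∀ j : Fin 3, nb (iv 1 j.val) 0 = iv 0 0 ∧
    nb (iv 1 j.val) 1 = B ⟨2 * j.val, by omega⟩ 1 ∧
    nb (iv 1 j.val) 2 = B ⟨2 * j.val + 1, by omega⟩ 1 := by decide +kernel

/-- the Petersen graph has no colouring -/
theorem pet_col : ∀ x0 ∈ [1, 2, 3], ∀ x1 ∈ [1, 2, 3], ∀ x2 ∈ [1, 2, 3], ∀ x3 ∈ [1, 2, 3],
    ∀ x4 ∈ [1, 2, 3], ∀ x5 ∈ [1, 2, 3],
    Nat.xor x0 x3 = 0 ∨ Nat.xor x1 x2 = 0 ∨ Nat.xor x2 x5 = 0 ∨ Nat.xor x3 x4 = 0 ∨
    Nat.xor x4 x1 = 0 ∨ Nat.xor x5 x0 = 0 ∨ Nat.xor (Nat.xor x0 x3) (Nat.xor x1 x2) = 0 ∨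
    Nat.xor (Nat.xor x2 x5) (Nat.xor x3 x4) = 0 ∨
    Nat.xor (Nat.xor x4 x1) (Nat.xor x5 x0) = 0 := by
  decide +kernel

end Pool.Agent.N366.CC
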