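import Pool.Agent.N366.CC.Chk

set_option autoImplicit false

namespace Pool.Agent.N366.CC

/-- the graph on 190 vertices -/
def G : SimpleGraph (Fin 190) where
  Adj u v := ∃ k, nb u k = v
  symm := ⟨fun u v h => by
    obtain ⟨k, rfl⟩ := h
    exact nb_symm u k⟩
  loopless := ⟨fun v h => by
    obtain ⟨k, hk⟩ := h
    exact nb_ne v k hk⟩

theorem adj_iff {u v : Fin 190} : G.Adj u v ↔ ∃ k, nb u k = v := Iff.rfl

theorem gok_use {n : ℕ} {v p w x : Fin 190} (h : gok (n + 1) v p w = true) (ha : G.Adj w x)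
    (hx : x ≠ p) : x ≠ v ∧ gok n v w x = true := by
  obtain ⟨k, rfl⟩ := ha
  simp only [gok, List.all_eq_true] at h
  have := h k (by simp)
  simp only [Bool.or_eq_true, Bool.and_eq_true, decide_eq_true_eq] at this
  rcases this with h1 | h1
  · exact absurd h1 hx
  · exact h1

theorem girth_six (v : Fin 190) (c : G.Walk v v) (hc : c.IsCycle) : 6 ≤ c.length := by
  have h3 := hc.three_le_length
  by_contra hlt
  rcases c with _ | ⟨h1, c⟩
  · simp at h3
  rcases c with _ | ⟨h2, c⟩
  · simp at h3
  rcases c with _ | ⟨h3', c⟩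
  · simp at h3
  obtain ⟨k, hk⟩ := id h1
  have g1 := gok_ok v k
  rw [hk] at g1
  rcases c with _ | ⟨h4, c⟩
  · have hn := hc.support_nodup
    simp only [SimpleGraph.Walk.support_cons, SimpleGraph.Walk.support_nil, List.tail_cons,
      List.nodup_cons, List.mem_cons, List.not_mem_nil, or_false, not_or] at hn
    obtain ⟨-, g2⟩ := gok_use g1 h2 (fun h => hn.2.1 h)
    exact (gok_use g2 h3' (fun h => hn.1.2 h.symm)).1 rfl
  rcases c with _ | ⟨h5, c⟩
  · have hn := hc.support_nodup
    simp only [SimpleGraph.Walk.support_cons, SimpleGraph.Walk.support_nil, List.tail_cons,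
      List.nodup_cons, List.mem_cons, List.not_mem_nil, or_false, not_or] at hn
    obtain ⟨-, g2⟩ := gok_use g1 h2 (fun h => hn.2.1.2 h)
    obtain ⟨-, g3⟩ := gok_use g2 h3' (fun h => hn.1.2.1 h.symm)
    exact (gok_use g3 h4 (fun h => hn.2.1.2 h.symm)).1 rfl
  rcases c with _ | ⟨h6, c⟩
  · have hn := hc.support_nodup
    simp only [SimpleGraph.Walk.support_cons, SimpleGraph.Walk.support_nil, List.tail_cons,
      List.nodup_cons, List.mem_cons, List.not_mem_nil, or_false, not_or] at hn
    obtain ⟨-, g2⟩ := gok_use g1 h2 (fun h => hn.2.1.2.2 h)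
    obtain ⟨-, g3⟩ := gok_use g2 h3' (fun h => hn.1.2.1 h.symm)
    obtain ⟨-, g4⟩ := gok_use g3 h4 (fun h => hn.2.1.2.1 h.symm)
    exact (gok_use g4 h5 (fun h => hn.2.2.1.2 h.symm)).1 rfl
  · simp only [SimpleGraph.Walk.length_cons] at hlt
    omega

/-- the edges between the two sides -/
def cut (b : Fin 190 → Bool) : Set (Sym2 (Fin 190)) :=
  {e | ∃ u v, G.Adj u v ∧ b u ≠ b v ∧ e = s(u, v)}

def ext (b : Fin 190 → Bool) (j : ℕ) : Bool := if h : j < 190 then b ⟨j, h⟩ else false

theorem ext_val (b : Fin 190 → Bool) (v : Fin 190) : ext b v.val = b v := by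
  simp [ext]

theorem E_mem {p : ℕ × ℕ} (hp : p ∈ E) : ∃ v k, (nb v k).val < v.val ∧
    ((nb v k).val, v.val) = p := by
  simp only [E, List.mem_flatMap, List.mem_map, List.mem_filter, decide_eq_true_eq] at hp
  obtain ⟨v, -, k, ⟨-, hk⟩, rfl⟩ := hp
  exact ⟨v, k, hk, rfl⟩

theorem E_nodup : E.Nodup := by decide +kernel

theorem S_filter (b : ℕ → Bool) (L : List (ℕ × ℕ)) :
    S b L = (L.filter fun p => xor (b p.1) (b p.2)).length := by
  induction L with
  | nil => rfl
  | cons p L ih =>
    simp only [S, List.map_cons, List.sum_cons, List.filter_cons] at ih ⊢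
    rw [ih]
    unfold dl
    cases h : xor (b p.1) (b p.2)
    · simp
    · simp [add_comm]

theorem S_le (b : Fin 190 → Bool) : S (ext b) E ≤ (cut b).ncard := by
  classical
  rw [S_filter, ← List.toFinset_card_of_nodup (E_nodup.filter _),
    ← Set.ncard_coe_finset]
  refine Set.ncard_le_ncard_of_injOn (fun p => s(mk p.1, mk p.2)) ?_ ?_ (Set.toFinite _)
  · intro p hp
    simp only [List.coe_toFinset, List.mem_filter, Set.mem_ofPred_eq] at hp
    obtain ⟨hp, hb⟩ := hp
    obtain ⟨v, k, hk, rfl⟩ := E_mem hp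
    simp only [ext_val] at hb
    have e1 : ∀ v : Fin 190, mk v.val = v := fun v => Fin.ext (Nat.mod_eq_of_lt v.isLt)
    refine ⟨nb v k, v, G.symm.symm _ _ ⟨k, rfl⟩, ?_, by simp only [e1]⟩
    intro h
    rw [h] at hb
    simp at hb
  · intro p hp q hq h
    simp only [List.coe_toFinset, List.mem_filter, Set.mem_ofPred_eq] at hp hq
    obtain ⟨v, k, hk, rfl⟩ := E_mem hp.1
    obtain ⟨w, j, hj, rfl⟩ := E_mem hq.1
    have e1 : ∀ v : Fin 190, mk v.val = v := fun v => Fin.ext (Nat.mod_eq_of_lt v.isLt)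
    simp only [e1, Sym2.eq_iff] at h
    rcases h with h | h
    · rw [h.1, h.2]
    · rw [h.1] at hk
      rw [← h.2] at hj
      omega

theorem const_of (b : Fin 190 → Bool) (h1 : (cut b).ncard ≤ 5)
    (h2 : ∀ v k k', k ≠ k' → ¬ (b (nb v k) ≠ b v ∧ b (nb v k') ≠ b v)) : ∀ v, b v = b 0 := by
  let c : Fin 190 → Bool := fun v => xor (b v) (b 0)
  have hc : ∀ v, c v = xor (b v) (b 0) := fun _ => rfl
  have hcut : cut c = cut b := by
    ext e
    constructor
    · rintro ⟨u, v, h, h', rfl⟩
      exact ⟨u, v, h, fun h3 => h' (by rw [hc, hc, h3]), rfl⟩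
    · rintro ⟨u, v, h, h', rfl⟩
      refine ⟨u, v, h, fun h3 => h' ?_, rfl⟩
      rw [hc, hc] at h3
      exact Bool.xor_right_inj.mp (by rw [Bool.xor_comm, h3, Bool.xor_comm])
  have hS : S (ext c) E ≤ 5 := by
    refine le_trans (S_le c) ?_
    rw [hcut]
    exact h1
  rw [← incs_eq (ext c) stgs 1 E stgs_perm] at hS
  have hbad : ∀ s ∈ stgs, bad s (ext c) = false := by
    intro s hs
    rw [← Bool.not_eq_true]
    intro h
    rw [bad, List.any_eq_true] at h
    obtain ⟨q, hq, h⟩ := h
    obtain ⟨h190, k, k', hkk, e1, e2⟩ := stgs_ch s hs q hq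
    rw [← e1, ← e2] at h
    have e3 : q.2.1 = (mk q.2.1).val := (Nat.mod_eq_of_lt h190).symm
    rw [e3] at h
    simp only [ext_val] at h
    have e4 : mk (mk q.2.1).val = mk q.2.1 := Fin.ext (Nat.mod_eq_of_lt (mk q.2.1).isLt)
    rw [e4] at h
    apply h2 (mk q.2.1) k k' hkk
    rw [hc, hc, hc] at h
    revert h
    cases b (nb (mk q.2.1) k) <;> cases b (nb (mk q.2.1) k') <;> cases b (mk q.2.1) <;>
      cases b 0 <;> simp
  have := dfs_sound (ext c) stgs 1 0 5 (by norm_num) (by
    intro j hj
    have : j = 0 := by omega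
    subst this
    have h0 : ext c 0 = c 0 := ext_val c 0
    rw [h0, hc]
    simp) stgs_wf hbad stgs_dfs hS
  intro v
  have h3 := this v.val (by rw [stgs_len]; omega)
  rw [ext_val, hc] at h3
  revert h3
  cases b v <;> cases b 0 <;> simp

theorem third : ∀ k k' : Fin 3, k ≠ k' → ∃ k3, ∀ j, j ≠ k → j ≠ k' → j = k3 := by decide

theorem flip (b : Fin 190 → Bool) (v : Fin 190) (k k' : Fin 3) (hkk : k ≠ k')
    (h1 : b (nb v k) ≠ b v) (h2 : b (nb v k') ≠ b v) :
    (cut (Function.update b v (!b v))).ncard < (cut b).ncard := by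
  classical
  obtain ⟨k3, hk3⟩ := third k k' hkk
  set e1 := s(v, nb v k) with he1
  set e2 := s(v, nb v k') with he2
  have m1 : e1 ∈ cut b := ⟨v, nb v k, ⟨k, rfl⟩, h1.symm, rfl⟩
  have m2 : e2 ∈ cut b := ⟨v, nb v k', ⟨k', rfl⟩, h2.symm, rfl⟩
  have hne : e1 ≠ e2 := by
    intro h
    rw [he1, he2, Sym2.eq_iff] at h
    rcases h with h | h
    · exact hkk (nb_inj v k k' h.2)
    · exact nb_ne v k' h.1.symm
  have hsub : cut (Function.update b v (!b v)) ⊆ insert s(v, nb v k3) (cut b \ {e1, e2}) := by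
    rintro e ⟨x, y, hxy, hb, rfl⟩
    by_cases hx : x = v
    · subst hx
      obtain ⟨j, rfl⟩ := hxy
      left
      rw [Function.update_self, Function.update_of_ne (nb_ne x j)] at hb
      have hjk : j ≠ k := by
        rintro rfl
        revert hb h1
        cases b x <;> cases b (nb x j) <;> simp
      have hjk' : j ≠ k' := by
        rintro rfl
        revert hb h2
        cases b x <;> cases b (nb x j) <;> simp
      rw [hk3 j hjk hjk']
    · by_cases hy : y = v
      · subst hy
        obtain ⟨j, rfl⟩ := G.symm.symm _ _ hxy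
        left
        rw [Function.update_self, Function.update_of_ne (nb_ne y j)] at hb
        have hjk : j ≠ k := by
          rintro rfl
          revert hb h1
          cases b y <;> cases b (nb y j) <;> simp
        have hjk' : j ≠ k' := by
          rintro rfl
          revert hb h2
          cases b y <;> cases b (nb y j) <;> simp
        rw [hk3 j hjk hjk', Sym2.eq_swap]
      · right
        rw [Function.update_of_ne hx, Function.update_of_ne hy] at hb
        refine ⟨⟨x, y, hxy, hb, rfl⟩, ?_⟩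
        rintro (h | h)
        · rw [he1, Sym2.eq_iff] at h
          rcases h with h | h
          · exact hx h.1
          · exact hy h.2
        · rw [Set.mem_singleton_iff, he2, Sym2.eq_iff] at h
          rcases h with h | h
          · exact hx h.1
          · exact hy h.2
  have hpair : ({e1, e2} : Set (Sym2 (Fin 190))) ⊆ cut b := by
    rintro e (rfl | h)
    · exact m1
    · rw [Set.mem_singleton_iff] at h
      rw [h]
      exact m2
  have h3 := Set.ncard_le_ncard hsub (Set.toFinite _)
  have h4 := Set.ncard_insert_le s(v, nb v k3) (cut b \ {e1, e2})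
  have h5 := Set.ncard_sdiff hpair (Set.toFinite _)
  have h6 := Set.ncard_le_ncard hpair (Set.toFinite _)
  rw [Set.ncard_pair hne] at h5 h6
  omega

theorem pig : ∀ k k' k1 k2 : Fin 3, k ≠ k' → k1 ≠ k2 → k = k1 ∨ k = k2 ∨ k' = k1 ∨ k' = k2 := by
  decide

theorem six (A A' : Set (Fin 190)) (hA : A.Nonempty) (hA' : A'.Nonempty)
    (h2A : ∀ v ∈ A, ∃ k k', k ≠ k' ∧ nb v k ∈ A ∧ nb v k' ∈ A)
    (h2A' : ∀ v ∈ A', ∃ k k', k ≠ k' ∧ nb v k ∈ A' ∧ nb v k' ∈ A') :
    ∀ (n : ℕ) (b : Fin 190 → Bool), (cut b).ncard = n → (∀ v ∈ A, b v = true) →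
      (∀ v ∈ A', b v = false) → 6 ≤ n := by
  intro n
  induction n using Nat.strong_induction_on with
  | _ n ih =>
    intro b hn hb hb'
    by_contra hlt
    by_cases hex : ∃ v k k', k ≠ k' ∧ b (nb v k) ≠ b v ∧ b (nb v k') ≠ b v
    · obtain ⟨v, k, k', hkk, h1, h2⟩ := hex
      have hf := flip b v k k' hkk h1 h2
      have hvA : v ∉ A := by
        intro hv
        obtain ⟨k1, k2, h12, m1, m2⟩ := h2A v hv
        have e0 := hb v hv
        have e1 := hb _ m1
        have e2 := hb _ m2
        rcases pig k k' k1 k2 hkk h12 with h | h | h | h <;> subst h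
        · exact h1 (by rw [e0, e1])
        · exact h1 (by rw [e0, e2])
        · exact h2 (by rw [e0, e1])
        · exact h2 (by rw [e0, e2])
      have hvA' : v ∉ A' := by
        intro hv
        obtain ⟨k1, k2, h12, m1, m2⟩ := h2A' v hv
        have e0 := hb' v hv
        have e1 := hb' _ m1
        have e2 := hb' _ m2
        rcases pig k k' k1 k2 hkk h12 with h | h | h | h <;> subst h
        · exact h1 (by rw [e0, e1])
        · exact h1 (by rw [e0, e2])
        · exact h2 (by rw [e0, e1])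
        · exact h2 (by rw [e0, e2])
      have := ih _ (by rw [hn] at hf; exact hf) (Function.update b v (!b v)) rfl
        (fun w hw => by
          have hne : w ≠ v := by rintro rfl; exact hvA hw
          rw [Function.update_of_ne hne]
          exact hb w hw)
        (fun w hw => by
          have hne : w ≠ v := by rintro rfl; exact hvA' hw
          rw [Function.update_of_ne hne]
          exact hb' w hw)
      omega
    · push Not at hex
      have hconst := const_of b (by omega) (fun v k k' hkk h => h.2 (hex v k k' hkk h.1))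
      obtain ⟨v, hv⟩ := hA
      obtain ⟨w, hw⟩ := hA'
      have h1 := hb v hv
      have h2 := hb' w hw
      rw [hconst v, ← hconst w, h2] at h1
      exact Bool.noConfusion h1

theorem cycle_two {D : Set (Sym2 (Fin 190))} {u : Fin 190} {c : (G.deleteEdges D).Walk u u}
    (hc : c.IsCycle) {v : Fin 190} (hv : v ∈ c.support) :
    ∃ k k', k ≠ k' ∧ nb v k ∈ c.support ∧ nb v k' ∈ c.support := by
  have h2 := hc.ncard_neighborSet_toSubgraph_eq_two hv
  obtain ⟨x, y, hxy, h⟩ := Set.ncard_eq_two.mp h2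
  have hx : x ∈ c.toSubgraph.neighborSet v := by rw [h]; simp
  have hy : y ∈ c.toSubgraph.neighborSet v := by rw [h]; simp
  rw [SimpleGraph.Subgraph.mem_neighborSet] at hx hy
  obtain ⟨k, hk⟩ := (SimpleGraph.deleteEdges_adj.mp hx.adj_sub).1
  obtain ⟨k', hk'⟩ := (SimpleGraph.deleteEdges_adj.mp hy.adj_sub).1
  refine ⟨k, k', ?_, ?_, ?_⟩
  · rintro rfl
    exact hxy (hk.symm.trans hk')
  · rw [hk]
    exact (c.mem_verts_toSubgraph).mp hx.snd_mem
  · rw [hk']
    exact (c.mem_verts_toSubgraph).mp hy.snd_mem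

theorem cyc6 (D : Set (Sym2 (Fin 190))) (hD : D.ncard < 6) (u v : Fin 190)
    (c : (G.deleteEdges D).Walk u u) (d : (G.deleteEdges D).Walk v v)
    (hc : c.IsCycle) (hd : d.IsCycle) : (G.deleteEdges D).Reachable u v := by
  classical
  by_contra hnr
  let b : Fin 190 → Bool := fun w => decide ((G.deleteEdges D).Reachable u w)
  have hb1 : ∀ w, b w = true ↔ (G.deleteEdges D).Reachable u w := fun w => by simp [b]
  have hsub : cut b ⊆ D := by
    rintro e ⟨x, y, hxy, hne, rfl⟩
    by_contra hnD
    apply hne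
    have h1 : (G.deleteEdges D).Adj x y := SimpleGraph.deleteEdges_adj.mpr ⟨hxy, hnD⟩
    have : (G.deleteEdges D).Reachable u x ↔ (G.deleteEdges D).Reachable u y :=
      ⟨fun h => h.trans h1.reachable, fun h => h.trans h1.symm.reachable⟩
    simp only [b, this]
  have h1 := Set.ncard_le_ncard hsub (Set.toFinite D)
  have := six {w | w ∈ c.support} {w | w ∈ d.support} ⟨u, c.start_mem_support⟩
    ⟨v, d.start_mem_support⟩ (fun w hw => cycle_two hc hw) (fun w hw => cycle_two hd hw)
    (cut b).ncard b rfl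
    (fun w hw => (hb1 w).mpr (c.takeUntil w hw).reachable)
    (fun w hw => by
      rw [← Bool.not_eq_true, hb1]
      exact fun h => hnr (h.trans (d.takeUntil w hw).reachable.symm))
  omega

theorem G_cubic (v : Fin 190) : (G.neighborSet v).ncard = 3 := by
  have : G.neighborSet v = Set.range (nb v) := by
    ext w
    exact Iff.rfl
  rw [this, ← Set.image_univ, Set.ncard_image_of_injective _ (fun k k' h => nb_inj v k k' h),
    Set.ncard_univ, Nat.card_eq_fintype_card, Fintype.card_fin]

end Pool.Agent.N366.CC
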