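import Pool.Agent.N366.CC.Col
import Pool.Agent.N366.RS.Stm

set_option autoImplicit false

namespace Pool.Agent.N366.CC

open Pool.Agent.N366.RS (width width_pos Node IsChild tree leaf IsSnark IsRotationTSnark)

variable {C : Fin 190 → Fin 190 → K}

def X (C : Fin 190 → Fin 190 → K) (l : Fin 6) : K := y C l 0 + y C l 1 + y C l 2

theorem t_eq (hC : Colr C) (l : Fin 6) : C (B l 1) (iv 1 (l.val / 2)) = X C l + X C (sg' l) := by
  have h1 := Aeq hC l
  have h2 := parity hC (sg' l)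
  have e0 : y C l 0 = C (B l 1) (B l 2) := rfl
  have e1 : y C l 1 = C (B l 12) (B l 25) := rfl
  have e2 : y C l 2 = C (B l 13) (B l 27) := rfl
  have f0 : y C (sg' l) 28 = C (B (sg' l) 16) (B (sg (sg' l)) 28) := rfl
  have f1 : y C (sg' l) 24 = C (B (sg' l) 18) (B (sg (sg' l)) 29) := rfl
  have f2 : y C (sg' l) 29 = C (B (sg (sg' l)) 15) (B (sg (sg' l)) 31) := rfl
  rw [f0, f1, f2, sg_sg'] at h2
  unfold X
  rw [h2, e0, e1, e2]
  linear_combination h1 - (C (B l 1) (B l 2) + C (B l 12) (B l 25) + C (B l 13) (B l 27) +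
    C (B (sg' l) 16) (B l 28) + C (B (sg' l) 18) (B l 29) + C (B l 15) (B l 31)) * two_zero

theorem s_eq (hC : Colr C) (j : Fin 3) : C (iv 1 j.val) (iv 0 0) =
    C (B ⟨2 * j.val, by omega⟩ 1) (iv 1 (2 * j.val / 2)) +
    C (B ⟨2 * j.val + 1, by omega⟩ 1) (iv 1 ((2 * j.val + 1) / 2)) := by
  obtain ⟨h0, h1, h2⟩ := Ych j
  have h := hC.sum (iv 1 j.val)
  rw [h0, h1, h2, hC.symm _ (B _ 1), hC.symm _ (B _ 1)] at h
  rw [show 2 * j.val / 2 = j.val from by omega, show (2 * j.val + 1) / 2 = j.val from by omega]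
  linear_combination h - (C (B ⟨2 * j.val, by omega⟩ 1) (iv 1 j.val) +
    C (B ⟨2 * j.val + 1, by omega⟩ 1) (iv 1 j.val)) * two_zero

theorem uncol (hC : Colr C) : False := by
  have hX : ∀ l, code (X C l) ∈ [1, 2, 3] := fun l => code_mem _ (X_ne hC l)
  have t0 := t_eq hC 0
  have t1 := t_eq hC 1
  have t2 := t_eq hC 2
  have t3 := t_eq hC 3
  have t4 := t_eq hC 4
  have t5 := t_eq hC 5
  have s0 := s_eq hC 0
  have s1 := s_eq hC 1
  have s2 := s_eq hC 2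
  change C (B 0 1) (iv 1 0) = X C 0 + X C 3 at t0
  change C (B 1 1) (iv 1 0) = X C 1 + X C 2 at t1
  change C (B 2 1) (iv 1 1) = X C 2 + X C 5 at t2
  change C (B 3 1) (iv 1 1) = X C 3 + X C 4 at t3
  change C (B 4 1) (iv 1 2) = X C 4 + X C 1 at t4
  change C (B 5 1) (iv 1 2) = X C 5 + X C 0 at t5
  change C (iv 1 0) (iv 0 0) = C (B 0 1) (iv 1 0) + C (B 1 1) (iv 1 0) at s0
  change C (iv 1 1) (iv 0 0) = C (B 2 1) (iv 1 1) + C (B 3 1) (iv 1 1) at s1
  change C (iv 1 2) (iv 0 0) = C (B 4 1) (iv 1 2) + C (B 5 1) (iv 1 2) at s2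
  rw [t0, t1] at s0
  rw [t2, t3] at s1
  rw [t4, t5] at s2
  have h := pet_col _ (hX 0) _ (hX 1) _ (hX 2) _ (hX 3) _ (hX 4) _ (hX 5)
  simp only [← code_add] at h
  rcases h with h | h | h | h | h | h | h | h | h
  · exact hC.ne _ _ (t0.trans (code_zero _ h))
  · exact hC.ne _ _ (t1.trans (code_zero _ h))
  · exact hC.ne _ _ (t2.trans (code_zero _ h))
  · exact hC.ne _ _ (t3.trans (code_zero _ h))
  · exact hC.ne _ _ (t4.trans (code_zero _ h))
  · exact hC.ne _ _ (t5.trans (code_zero _ h))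
  · exact hC.ne _ _ (s0.trans (code_zero _ h))
  · exact hC.ne _ _ (s1.trans (code_zero _ h))
  · exact hC.ne _ _ (s2.trans (code_zero _ h))

theorem G_uncol : ¬ ∃ f : Sym2 (Fin 190) → Fin 3, ∀ u v w : Fin 190, G.Adj u v → G.Adj u w →
    v ≠ w → f s(u, v) ≠ f s(u, w) := by
  rintro ⟨f, hf⟩
  apply uncol (C := fun v w => em (f s(v, w)))
  refine ⟨fun v w => by rw [Sym2.eq_swap], fun v w => em_ne _, fun v => ?_⟩
  have hne : ∀ k k', k ≠ k' → f s(v, nb v k) ≠ f s(v, nb v k') := fun k k' h =>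
    hf v _ _ ⟨k, rfl⟩ ⟨k', rfl⟩ (fun h' => h (nb_inj v k k' h'))
  exact em_sum _ _ _ (hne 0 1 (by decide)) (hne 0 2 (by decide)) (hne 1 2 (by decide))

theorem G_snark : IsSnark G :=
  ⟨G_cubic, fun D _ hD u v c d hc hd => cyc6 D (by omega) u v c d hc hd,
    fun v c hc => le_trans (by norm_num) (girth_six v c hc), G_uncol⟩

/-! ### the spanning tree -/

theorem Nd_rng : ∀ v, (Nd v).1 ≤ 6 ∧ (Nd v).2 < width (Nd v).1 := by decide +kernel

theorem iv_Nd : ∀ v, iv (Nd v).1 (Nd v).2 = v := by decide +kernel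

theorem Nd_iv : ∀ d < 7, ∀ c < width d, Nd (iv d c) = (d, c) := by decide +kernel

theorem par : ∀ v, (Nd v).1 ≠ 0 → ∃ k, nb v k =
    iv ((Nd v).1 - 1) (if (Nd v).1 = 1 then 0 else (Nd v).2 / 2) := by decide +kernel

theorem rot_adj : ∀ v k, ∃ k', nb (rot v) k' = rot (nb v k) := by decide +kernel

theorem rot_leaf : ∀ a < 96, rot (iv 6 a) = iv 6 ((a + 32) % 96) := by decide +kernel

def φ : Node 6 ≃ Fin 190 where
  toFun p := iv p.1.1 p.1.2
  invFun v := ⟨Nd v, Nd_rng v⟩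
  left_inv p := Subtype.ext (Nd_iv p.1.1 (Nat.lt_succ_of_le p.2.1) p.1.2 p.2.2)
  right_inv := iv_Nd

theorem child_adj (p q : Node 6) (h : IsChild p.1 q.1) : G.Adj (φ q) (φ p) := by
  have hq : Nd (φ q) = q.1 := Nd_iv q.1.1 (Nat.lt_succ_of_le q.2.1) q.1.2 q.2.2
  have h1 := par (φ q)
  rw [hq, h.1] at h1
  obtain ⟨k, hk⟩ := h1 (by omega)
  refine ⟨k, ?_⟩
  rw [hk]
  change _ = iv p.1.1 p.1.2
  congr 1
  by_cases h0 : p.1.1 = 0
  · have h6 := p.2.2
    rw [h0] at h6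
    simp only [width, if_true] at h6
    rw [h0]
    simp only [zero_add, if_true]
    omega
  · rw [if_neg (by omega)]
    rcases h.2 with h3 | h3
    · exact absurd h3 h0
    · exact h3.symm

theorem tree_adj (p q : Node 6) (h : (tree 6).Adj p q) : G.Adj (φ p) (φ q) := by
  rcases h with h | h
  · exact (child_adj p q h).symm
  · exact child_adj q p h

theorem leaf_rot (a : ℕ) : φ (leaf 6 (a + width 6 / 3)) = rot (φ (leaf 6 a)) := by
  change iv 6 ((a + 32) % 96) = rot (iv 6 (a % 96))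
  rw [rot_leaf _ (Nat.mod_lt _ (by norm_num)), Nat.mod_add_mod]

theorem G_rot : IsRotationTSnark 6 G := by
  refine ⟨by norm_num, G_snark, φ, tree_adj, fun a b h => ?_⟩
  rw [leaf_rot, leaf_rot]
  obtain ⟨k, hk⟩ := h
  rw [← hk]
  exact rot_adj _ k

end Pool.Agent.N366.CC
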