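import Mathlib

/-!
# A search for small cuts, with splitting certificates

The vertices of a graph are `0, 1, 2, …`. Stage `i` adds the vertex `i`: `s.1` lists pairs `(u, v)`
of earlier vertices whose (possibly virtual) edge `uv` is subdivided by the new vertex `i`, `s.2.1`
lists earlier vertices joined to `i` by a new (possibly virtual) edge, and `s.2.2` lists triples
`(a, c, d)` such that `a` and `d` are neighbours of `c`.
-/

set_option autoImplicit false

namespace Pool.Agent.N366.CC

def dl (a b : Bool) : ℕ := bif (xor a b) then 1 else 0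
def tri (u v w : Bool) : ℕ := bif (xor u v) then 0 else bif (xor u w) then 2 else 0

theorem tri_dl : ∀ u v w : Bool, dl u w + dl v w = tri u v w + dl u v := by decide

abbrev Stg := List (ℕ × ℕ) × List ℕ × List (ℕ × ℕ × ℕ)

def inc (s : Stg) (b : ℕ → Bool) (i : ℕ) : ℕ :=
  (s.1.map fun p => tri (b p.1) (b p.2) (b i)).sum + (s.2.1.map fun u => dl (b u) (b i)).sum

def bad (s : Stg) (b : ℕ → Bool) : Bool :=
  s.2.2.any fun q => (!(xor (b q.1) (b q.2.2))) && xor (b q.1) (b q.2.1)

/-- no assignment extending `m` survives, except the zero assignment -/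
def dfs : List Stg → ℕ → ℕ → ℕ → Bool
  | [], _, m, _ => Nat.beq m 0
  | s :: rest, i, m, bud =>
    (Nat.blt bud (inc s m.testBit i) || bad s m.testBit ||
      dfs rest (i + 1) m (bud - inc s m.testBit i)) &&
    (Nat.blt bud (inc s (2 ^ i + m).testBit i) || bad s (2 ^ i + m).testBit ||
      dfs rest (i + 1) (2 ^ i + m) (bud - inc s (2 ^ i + m).testBit i))

def incs (b : ℕ → Bool) : List Stg → ℕ → ℕ
  | [], _ => 0
  | s :: rest, i => inc s b i + incs b rest (i + 1)

def wf : List Stg → ℕ → Bool
  | [], _ => true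
  | s :: rest, i => (s.1.all fun p => decide (p.1 < i) && decide (p.2 < i)) &&
      (s.2.1.all fun u => decide (u < i)) &&
      (s.2.2.all fun q => decide (q.1 ≤ i) && decide (q.2.1 ≤ i) && decide (q.2.2 ≤ i)) &&
      wf rest (i + 1)

theorem inc_congr (s : Stg) (b c : ℕ → Bool) (i : ℕ)
    (h1 : ∀ p ∈ s.1, p.1 < i ∧ p.2 < i) (h2 : ∀ u ∈ s.2.1, u < i) (h : ∀ j ≤ i, b j = c j) :
    inc s b i = inc s c i := by
  unfold inc
  congr 2
  · apply List.map_congr_left
    intro p hp
    obtain ⟨ha, hb⟩ := h1 p hp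
    rw [h _ ha.le, h _ hb.le, h i le_rfl]
  · apply List.map_congr_left
    intro u hu
    rw [h _ (h2 u hu).le, h i le_rfl]

theorem bad_congr (s : Stg) (b c : ℕ → Bool) (i : ℕ)
    (h3 : ∀ q ∈ s.2.2, q.1 ≤ i ∧ q.2.1 ≤ i ∧ q.2.2 ≤ i) (h : ∀ j ≤ i, b j = c j) :
    bad s b = bad s c := by
  unfold bad
  rw [Bool.eq_iff_iff, List.any_eq_true, List.any_eq_true]
  constructor
  · rintro ⟨q, hq, h4⟩
    obtain ⟨ha, hb, hc⟩ := h3 q hq
    refine ⟨q, hq, ?_⟩
    rw [← h _ ha, ← h _ hb, ← h _ hc]
    exact h4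
  · rintro ⟨q, hq, h4⟩
    obtain ⟨ha, hb, hc⟩ := h3 q hq
    refine ⟨q, hq, ?_⟩
    rw [h _ ha, h _ hb, h _ hc]
    exact h4

theorem dfs_sound (b : ℕ → Bool) : ∀ (L : List Stg) (i m bud : ℕ), m < 2 ^ i →
    (∀ j < i, m.testBit j = b j) → wf L i = true → (∀ s ∈ L, bad s b = false) →
    dfs L i m bud = true → incs b L i ≤ bud → ∀ j < i + L.length, b j = false := by
  intro L
  induction L with
  | nil =>
    intro i m bud _ h2 _ _ h5 _ j hj
    simp only [dfs] at h5
    have : m = 0 := Nat.eq_of_beq_eq_true h5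
    subst this
    rw [← h2 j (by simpa using hj)]
    exact Nat.zero_testBit j
  | cons s rest ih =>
    intro i m bud h1 h2 h3 h4 h5 h6 j hj
    simp only [wf, Bool.and_eq_true, List.all_eq_true, decide_eq_true_eq] at h3
    obtain ⟨⟨⟨w1, w2⟩, w3⟩, w4⟩ := h3
    simp only [dfs, Bool.and_eq_true, Bool.or_eq_true] at h5
    have w3' : ∀ q ∈ s.2.2, q.1 ≤ i ∧ q.2.1 ≤ i ∧ q.2.2 ≤ i := fun q hq =>
      ⟨(w3 q hq).1.1, (w3 q hq).1.2, (w3 q hq).2⟩
    have hb := h4 s (List.mem_cons_self ..)
    simp only [incs] at h6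
    have key : ∀ m' : ℕ, m' < 2 ^ (i + 1) → (∀ j ≤ i, m'.testBit j = b j) →
        ((Nat.blt bud (inc s m'.testBit i) = true ∨ bad s m'.testBit = true) ∨
        dfs rest (i + 1) m' (bud - inc s m'.testBit i) = true) → b j = false := by
      intro m' hm' hj' hd
      rw [inc_congr s m'.testBit b i w1 w2 hj', bad_congr s m'.testBit b i w3' hj', hb] at hd
      rcases hd with (hd | hd) | hd
      · rw [Nat.blt_eq] at hd
        omega
      · exact Bool.noConfusion hd
      · exact ih (i + 1) m' _ hm' (fun j hj => hj' j (by omega)) w4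
          (fun s hs => h4 s (List.mem_cons_of_mem _ hs)) hd (by omega) j
          (by simp only [List.length_cons] at hj; omega)
    have hmi : m.testBit i = false := Nat.testBit_lt_two_pow h1
    cases hbi : b i
    · refine key m (lt_trans h1 (Nat.pow_lt_pow_right (by omega) (by omega))) ?_ h5.1
      intro j hj
      rcases Nat.lt_or_ge j i with h | h
      · exact h2 j h
      · have : j = i := by omega
        subst this
        rw [hmi, hbi]
    · refine key (2 ^ i + m) (by rw [pow_succ]; omega) ?_ h5.2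
      intro j hj
      rcases Nat.lt_or_ge j i with h | h
      · rw [Nat.testBit_two_pow_add_gt h]
        exact h2 j h
      · have : j = i := by omega
        subst this
        rw [Nat.testBit_two_pow_add_eq, hmi, hbi]
        rfl

/-! ### the telescoping sum -/

def news : List Stg → ℕ → List (ℕ × ℕ)
  | [], _ => []
  | s :: rest, i => (s.1.flatMap fun p => [(p.1, i), (p.2, i)]) ++ (s.2.1.map fun u => (u, i)) ++
      news rest (i + 1)

def lifts : List Stg → List (ℕ × ℕ)
  | [] => []
  | s :: rest => s.1 ++ lifts rest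

def S (b : ℕ → Bool) (L : List (ℕ × ℕ)) : ℕ := (L.map fun p => dl (b p.1) (b p.2)).sum

theorem S_append (b : ℕ → Bool) (L M : List (ℕ × ℕ)) : S b (L ++ M) = S b L + S b M := by
  simp [S]

theorem S_perm (b : ℕ → Bool) {L M : List (ℕ × ℕ)} (h : L.Perm M) : S b L = S b M :=
  (h.map _).sum_eq

theorem S_tri (b : ℕ → Bool) (i : ℕ) (L : List (ℕ × ℕ)) :
    S b (L.flatMap fun p => [(p.1, i), (p.2, i)]) =
      (L.map fun p => tri (b p.1) (b p.2) (b i)).sum + S b L := by
  induction L with
  | nil => rfl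
  | cons p L ih =>
    rw [List.flatMap_cons, S_append, ih]
    have := tri_dl (b p.1) (b p.2) (b i)
    simp only [S, List.map_cons, List.map_nil, List.sum_cons, List.sum_nil] at *
    omega

theorem telescope (b : ℕ → Bool) : ∀ (L : List Stg) (i : ℕ),
    S b (news L i) = incs b L i + S b (lifts L) := by
  intro L
  induction L with
  | nil => intro i; rfl
  | cons s rest ih =>
    intro i
    simp only [news, incs, lifts, S_append, ih, S_tri, inc]
    have : S b (s.2.1.map fun u => (u, i)) = (s.2.1.map fun u => dl (b u) (b i)).sum := by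
      simp [S, List.map_map, Function.comp_def]
    rw [this]
    omega

theorem incs_eq (b : ℕ → Bool) (L : List Stg) (i : ℕ) (E : List (ℕ × ℕ))
    (h : (news L i).Perm (E ++ lifts L)) : incs b L i = S b E := by
  have h1 := telescope b L i
  rw [S_perm b h, S_append] at h1
  omega

end Pool.Agent.N366.CC
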