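import Pool.Agent.N366.CC.Lift

set_option autoImplicit false

namespace Pool.Agent.N366.CC

/-- the stages of the search -/
def stgs : List Stg := [
  ([], [0, 0, 0], []),
  ([(0, 1)], [], []),
  ([(0, 1)], [2], []),
  ([(1, 3)], [], []),
  ([(0, 2)], [4], [(5, 2, 1), (4, 5, 2)]),
  ([(0, 1)], [], [(6, 1, 2)]),
  ([(3, 4)], [6], [(7, 4, 5), (4, 7, 3)]),
  ([(1, 4)], [], []),
  ([(0, 3)], [8], []),
  ([(2, 3)], [], [(5, 2, 10), (10, 2, 1), (7, 3, 10), (3, 10, 2)]),
  ([(4, 8)], [10], []),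
  ([(0, 5)], [], []),
  ([(8, 11)], [12], [(9, 8, 13), (8, 13, 11)]),
  ([(0, 9)], [], [(8, 9, 14)]),
  ([(4, 11)], [14], [(9, 14, 15)]),
  ([(10, 11)], [], [(13, 11, 16)]),
  ([(0, 14)], [16], [(9, 14, 17), (15, 14, 17)]),
  ([(1, 8)], [], [(9, 8, 18), (13, 8, 18)]),
  ([(16, 17)], [18], [(11, 16, 19), (14, 17, 19), (17, 19, 16)]),
  ([(10, 16)], [], [(20, 10, 3), (20, 10, 2)]),
  ([(0, 6)], [20], [(21, 6, 1)]),
  ([(4, 15)], [], [(22, 4, 7), (22, 4, 5)]),
  ([(20, 21)], [22], [(23, 20, 10), (23, 21, 6), (23, 22, 4), (22, 23, 21), (22, 23, 20), (21, 23, 20)]),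
  ([(15, 22)], [], [(14, 15, 24)]),
  ([(18, 19)], [24], [(8, 18, 25), (17, 19, 25), (25, 19, 16), (15, 24, 25), (18, 25, 24), (18, 25, 19), (24, 25, 19)]),
  ([(22, 24)], [], [(26, 22, 23), (26, 22, 4)]),
  ([(3, 9)], [26], [(27, 9, 8), (27, 9, 14)]),
  ([(5, 12)], [], []),
  ([(24, 26)], [28], []),
  ([(0, 17)], [], []),
  ([(3, 27)], [30], []),
  ([(6, 7)], [], [(21, 6, 32), (32, 6, 1), (4, 7, 32), (32, 7, 3), (7, 32, 6)]),
  ([(16, 20)], [32], [(23, 20, 33), (33, 20, 10), (7, 32, 33), (6, 32, 33), (20, 33, 32)]),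
  ([(11, 15)], [], [(13, 11, 34), (34, 11, 16), (14, 15, 34), (34, 15, 24), (15, 34, 11)]),
  ([(1, 18)], [34], [(8, 18, 35), (35, 18, 25), (15, 34, 35), (11, 34, 35), (18, 35, 34)]),
  ([(26, 29)], [], []),
  ([(1, 35)], [36], []),
  ([(27, 31)], [], []),
  ([(16, 33)], [38], []),
  ([(16, 39)], [], []),
  ([(1, 37)], [40], []),
  ([(5, 28)], [], []),
  ([(35, 37)], [42], [(37, 43, 42)]),
  ([(12, 28)], [], [(44, 28, 29), (12, 44, 28)]),
  ([(36, 37)], [44], [(45, 37, 43), (12, 44, 45), (45, 44, 28), (44, 45, 37)]),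
  ([(35, 43)], [], [(37, 43, 46), (42, 43, 46)]),
  ([(29, 36)], [46], [(28, 29, 47), (43, 46, 47), (29, 47, 36), (29, 47, 46), (36, 47, 46)]),
  ([(17, 30)], [], []),
  ([(33, 39)], [48], [(39, 49, 48)]),
  ([(0, 30)], [], [(50, 30, 31), (0, 50, 30)]),
  ([(38, 39)], [50], [(51, 39, 49), (0, 50, 51), (51, 50, 30), (50, 51, 39)]),
  ([(33, 49)], [], [(39, 49, 52), (48, 49, 52)]),
  ([(31, 38)], [52], [(30, 31, 53), (49, 52, 53), (31, 53, 38), (31, 53, 52), (38, 53, 52)]),
  ([(12, 13)], [], []),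
  ([(24, 29)], [54], []),
  ([(12, 54)], [], [(56, 54, 55)]),
  ([(35, 46)], [56], [(18, 35, 57), (34, 35, 57), (54, 56, 57), (56, 57, 35)]),
  ([(24, 55)], [], [(54, 55, 58)]),
  ([(46, 57)], [58], [(56, 57, 59), (59, 57, 35), (55, 58, 59), (57, 59, 58)]),
  ([(46, 59)], [], [(60, 46, 43), (60, 46, 47), (60, 59, 57), (60, 59, 58), (59, 60, 46)]),
  ([(12, 56)], [60], [(44, 12, 61)]),
  ([(60, 61)], [], [(62, 60, 59), (62, 60, 46), (12, 61, 62), (61, 62, 60)]),
  ([(29, 55)], [62], [(63, 55, 54), (63, 55, 58), (61, 62, 63), (63, 62, 60), (62, 63, 55)]),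
  ([(37, 41)], [], [(45, 37, 64), (64, 37, 43)]),
  ([(29, 63)], [64], [(62, 63, 65), (55, 63, 65), (37, 64, 65), (63, 65, 64)]),
  ([(0, 21)], [], []),
  ([(3, 31)], [66], []),
  ([(0, 66)], [], [(68, 66, 67)]),
  ([(33, 52)], [68], [(20, 33, 69), (32, 33, 69), (66, 68, 69), (68, 69, 33)]),
  ([(3, 67)], [], [(66, 67, 70)]),
  ([(52, 69)], [70], [(68, 69, 71), (71, 69, 33), (67, 70, 71), (69, 71, 70)]),
  ([(52, 71)], [], [(72, 52, 49), (72, 52, 53), (72, 71, 69), (72, 71, 70), (71, 72, 52)]),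
  ([(0, 68)], [72], [(50, 0, 73)]),
  ([(72, 73)], [], [(74, 72, 71), (74, 72, 52), (0, 73, 74), (73, 74, 72)]),
  ([(31, 67)], [74], [(75, 67, 66), (75, 67, 70), (73, 74, 75), (75, 74, 72), (74, 75, 67)]),
  ([(39, 40)], [], [(51, 39, 76), (76, 39, 49)]),
  ([(31, 75)], [76], [(74, 75, 77), (67, 75, 77), (39, 76, 77), (75, 77, 76)]),
  ([(0, 12)], [], [(50, 0, 78), (73, 0, 78), (44, 12, 78), (61, 12, 78), (0, 78, 12)]),
  ([(40, 41)], [78], [(41, 79, 40)]),
  ([(78, 79)], [], [(80, 78, 0), (80, 78, 12), (80, 79, 41), (80, 79, 40), (79, 80, 78)]),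
  ([(26, 27)], [80], [(22, 26, 81), (9, 27, 81), (81, 80, 79), (81, 80, 78), (80, 81, 27), (80, 81, 26), (27, 81, 26)]),
  ([(5, 42)], [], []),
  ([(21, 66)], [82], [(23, 21, 83), (83, 21, 6), (68, 66, 83), (67, 66, 83), (21, 83, 82), (21, 83, 66), (82, 83, 66)]),
  ([(17, 48)], [], []),
  ([(13, 54)], [84], [(8, 13, 85), (85, 13, 11), (56, 54, 85), (55, 54, 85), (13, 85, 84), (13, 85, 54), (84, 85, 54)]),
  ([(38, 51)], [], [(86, 38, 53), (50, 51, 86), (39, 51, 86), (51, 86, 38)]),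
  ([(48, 84)], [86], [(49, 48, 87), (51, 86, 87), (87, 86, 38), (86, 87, 48)]),
  ([(27, 38)], [], [(86, 38, 88), (88, 38, 53)]),
  ([(30, 48)], [88], [(50, 30, 89), (89, 30, 31), (89, 48, 49), (89, 48, 87), (89, 88, 38), (30, 89, 48), (30, 89, 88), (48, 89, 88)]),
  ([(27, 88)], [], []),
  ([(16, 40)], [90], []),
  ([(84, 87)], [], []),
  ([(40, 91)], [92], [(93, 91, 90), (91, 93, 92)]),
  ([(27, 90)], [], [(94, 90, 91)]),
  ([(87, 92)], [94], [(90, 94, 95)]),
  ([(84, 92)], [], [(93, 92, 96)]),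
  ([(88, 90)], [96], [(97, 90, 94), (97, 90, 91), (97, 96, 92), (90, 97, 96)]),
  ([(88, 97)], [], [(98, 97, 90), (98, 97, 96)]),
  ([(40, 93)], [98], [(99, 40, 79), (99, 98, 97), (40, 99, 98)]),
  ([(93, 99)], [], [(100, 93, 91), (100, 93, 92), (40, 99, 100), (100, 99, 98), (99, 100, 93)]),
  ([(27, 94)], [100], [(101, 94, 90), (101, 94, 95), (99, 100, 101), (101, 100, 93), (100, 101, 94)]),
  ([(88, 98)], [], [(99, 98, 102), (97, 98, 102)]),
  ([(92, 95)], [102], [(93, 92, 103), (96, 92, 103), (94, 95, 103), (98, 102, 103), (102, 103, 92), (102, 103, 95), (92, 103, 95)]),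
  ([(27, 101)], [], [(100, 101, 104), (104, 101, 94)]),
  ([(88, 102)], [104], [(101, 104, 105)]),
  ([(87, 95)], [], [(86, 87, 106), (48, 87, 106)]),
  ([(40, 76)], [106], [(107, 106, 87)]),
  ([(76, 107)], [], [(39, 76, 108), (77, 76, 108), (108, 107, 106), (107, 108, 76)]),
  ([(88, 105)], [108], [(107, 108, 109), (109, 108, 76)]),
  ([(95, 106)], [], [(107, 106, 110), (110, 106, 87)]),
  ([(88, 109)], [110], [(108, 109, 111), (106, 110, 111), (109, 111, 110)]),
  ([(40, 107)], [], [(99, 40, 112), (112, 40, 79)]),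
  ([(95, 110)], [112], [(113, 95, 94), (113, 95, 103), (113, 110, 106), (113, 110, 111), (110, 113, 95)]),
  ([(105, 109)], [], [(114, 105, 104), (114, 109, 108), (114, 109, 111), (109, 114, 105)]),
  ([(112, 113)], [114], [(40, 112, 115), (115, 113, 110), (115, 113, 95), (115, 114, 109), (115, 114, 105), (112, 115, 114), (112, 115, 113), (114, 115, 113)]),
  ([(36, 45)], [], [(116, 36, 47), (44, 45, 116), (37, 45, 116), (45, 116, 36)]),
  ([(42, 82)], [116], [(43, 42, 117), (45, 116, 117), (117, 116, 36), (116, 117, 42)]),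
  ([(26, 36)], [], [(116, 36, 118), (118, 36, 47)]),
  ([(28, 42)], [118], [(44, 28, 119), (119, 28, 29), (119, 42, 43), (119, 42, 117), (119, 118, 36), (28, 119, 42), (28, 119, 118), (42, 119, 118)]),
  ([(26, 118)], [], []),
  ([(1, 41)], [120], []),
  ([(82, 117)], [], []),
  ([(41, 121)], [122], [(123, 121, 120), (121, 123, 122)]),
  ([(26, 120)], [], [(124, 120, 121)]),
  ([(117, 122)], [124], [(120, 124, 125)]),
  ([(82, 122)], [], [(123, 122, 126)]),
  ([(118, 120)], [126], [(127, 120, 124), (127, 120, 121), (127, 126, 122), (120, 127, 126)]),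
  ([(118, 127)], [], [(128, 127, 120), (128, 127, 126)]),
  ([(41, 123)], [128], [(129, 41, 79), (129, 128, 127), (41, 129, 128)]),
  ([(123, 129)], [], [(130, 123, 121), (130, 123, 122), (41, 129, 130), (130, 129, 128), (129, 130, 123)]),
  ([(26, 124)], [130], [(131, 124, 120), (131, 124, 125), (129, 130, 131), (131, 130, 123), (130, 131, 124)]),
  ([(118, 128)], [], [(129, 128, 132), (127, 128, 132)]),
  ([(122, 125)], [132], [(123, 122, 133), (126, 122, 133), (124, 125, 133), (128, 132, 133), (132, 133, 122), (132, 133, 125), (122, 133, 125)]),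
  ([(26, 131)], [], [(130, 131, 134), (134, 131, 124)]),
  ([(118, 132)], [134], [(131, 134, 135)]),
  ([(117, 125)], [], [(116, 117, 136), (42, 117, 136)]),
  ([(41, 64)], [136], [(137, 136, 117)]),
  ([(64, 137)], [], [(37, 64, 138), (65, 64, 138), (138, 137, 136), (137, 138, 64)]),
  ([(118, 135)], [138], [(137, 138, 139), (139, 138, 64)]),
  ([(125, 136)], [], [(137, 136, 140), (140, 136, 117)]),
  ([(118, 139)], [140], [(138, 139, 141), (136, 140, 141), (139, 141, 140)]),
  ([(41, 137)], [], [(129, 41, 142), (142, 41, 79)]),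
  ([(125, 140)], [142], [(143, 125, 124), (143, 125, 133), (143, 140, 136), (143, 140, 141), (140, 143, 125)]),
  ([(135, 139)], [], [(144, 135, 134), (144, 139, 138), (144, 139, 141), (139, 144, 135)]),
  ([(142, 143)], [144], [(41, 142, 145), (145, 143, 140), (145, 143, 125), (145, 144, 139), (145, 144, 135), (142, 145, 144), (142, 145, 143), (144, 145, 143)]),
  ([(1, 121)], [], [(123, 121, 146), (120, 121, 146)]),
  ([(26, 134)], [146], [(147, 146, 121)]),
  ([(134, 147)], [], [(131, 134, 148), (135, 134, 148), (148, 147, 146), (147, 148, 134)]),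
  ([(82, 126)], [148], [(147, 148, 149), (149, 148, 134)]),
  ([(1, 146)], [], [(147, 146, 150), (150, 146, 121)]),
  ([(126, 149)], [150], [(148, 149, 151), (146, 150, 151), (149, 151, 150)]),
  ([(26, 147)], [], [(22, 26, 152), (152, 26, 81)]),
  ([(1, 150)], [152], [(153, 1, 6), (153, 1, 2), (153, 150, 146), (153, 150, 151), (150, 153, 1)]),
  ([(82, 149)], [], [(154, 82, 83), (154, 149, 148), (154, 149, 151), (149, 154, 82)]),
  ([(152, 153)], [154], [(26, 152, 155), (155, 153, 150), (155, 153, 1), (155, 154, 149), (155, 154, 82), (152, 155, 154), (152, 155, 153), (154, 155, 153)]),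
  ([(16, 91)], [], [(93, 91, 156), (90, 91, 156)]),
  ([(27, 104)], [156], [(157, 156, 91)]),
  ([(104, 157)], [], [(101, 104, 158), (105, 104, 158), (158, 157, 156), (157, 158, 104)]),
  ([(84, 96)], [158], [(157, 158, 159), (159, 158, 104)]),
  ([(16, 156)], [], [(157, 156, 160), (160, 156, 91)]),
  ([(96, 159)], [160], [(158, 159, 161), (156, 160, 161), (159, 161, 160)]),
  ([(27, 157)], [], [(9, 27, 162), (162, 27, 81)]),
  ([(16, 160)], [162], [(163, 16, 11), (163, 16, 19), (163, 160, 156), (163, 160, 161), (160, 163, 16)]),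
  ([(84, 159)], [], [(164, 84, 85), (164, 159, 158), (164, 159, 161), (159, 164, 84)]),
  ([(162, 163)], [164], [(27, 162, 165), (165, 163, 160), (165, 163, 16), (165, 164, 159), (165, 164, 84), (162, 165, 164), (162, 165, 163), (164, 165, 163)]),
  ([(24, 58)], [], [(15, 24, 166), (25, 24, 166)]),
  ([(17, 84)], [166], [(14, 17, 167), (167, 17, 19), (164, 84, 167), (85, 84, 167), (24, 166, 167), (17, 167, 84), (17, 167, 166), (84, 167, 166)]),
  ([(56, 61)], [], [(168, 56, 54), (168, 56, 57), (12, 61, 168), (62, 61, 168), (61, 168, 56)]),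
  ([(58, 166)], [168], [(169, 58, 55), (169, 58, 59), (169, 166, 24), (169, 166, 167), (61, 168, 169), (56, 168, 169), (168, 169, 58), (168, 169, 166), (58, 169, 166)]),
  ([(3, 70)], [], [(7, 3, 170), (10, 3, 170)]),
  ([(5, 82)], [170], [(4, 5, 171), (171, 5, 2), (154, 82, 171), (83, 82, 171), (3, 170, 171), (5, 171, 82), (5, 171, 170), (82, 171, 170)]),
  ([(68, 73)], [], [(172, 68, 66), (172, 68, 69), (0, 73, 172), (74, 73, 172), (73, 172, 68)]),
  ([(70, 170)], [172], [(173, 70, 67), (173, 70, 71), (173, 170, 3), (173, 170, 171), (73, 172, 173), (68, 172, 173), (172, 173, 70), (172, 173, 170), (70, 173, 170)]),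
  ([(31, 77)], [], [(30, 31, 174), (174, 31, 53), (75, 77, 174), (76, 77, 174), (31, 174, 77)]),
  ([(88, 111)], [174], [(89, 88, 175), (38, 88, 175), (31, 174, 175), (77, 174, 175), (88, 175, 174)]),
  ([(107, 112)], [], [(176, 107, 108), (176, 107, 106), (40, 112, 176), (115, 112, 176), (112, 176, 107)]),
  ([(111, 175)], [176], [(177, 111, 109), (177, 111, 110), (177, 175, 88), (177, 175, 174), (112, 176, 177), (107, 176, 177), (176, 177, 111), (176, 177, 175), (111, 177, 175)]),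
  ([(29, 65)], [], [(28, 29, 178), (178, 29, 47), (63, 65, 178), (64, 65, 178), (29, 178, 65)]),
  ([(118, 141)], [178], [(119, 118, 179), (36, 118, 179), (29, 178, 179), (65, 178, 179), (118, 179, 178)]),
  ([(137, 142)], [], [(180, 137, 138), (180, 137, 136), (41, 142, 180), (145, 142, 180), (142, 180, 137)]),
  ([(141, 179)], [180], [(181, 141, 139), (181, 141, 140), (181, 179, 118), (181, 179, 178), (142, 180, 181), (137, 180, 181), (180, 181, 141), (180, 181, 179), (141, 181, 179)]),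
  ([(132, 135)], [], [(128, 132, 182), (182, 132, 133), (144, 135, 182), (134, 135, 182), (132, 182, 135)]),
  ([(126, 151)], [182], [(127, 126, 183), (122, 126, 183), (132, 182, 183), (135, 182, 183), (126, 183, 182)]),
  ([(147, 152)], [], [(184, 147, 148), (184, 147, 146), (26, 152, 184), (155, 152, 184), (152, 184, 147)]),
  ([(151, 183)], [184], [(185, 151, 149), (185, 151, 150), (185, 183, 126), (185, 183, 182), (152, 184, 185), (147, 184, 185), (184, 185, 151), (184, 185, 183), (151, 185, 183)]),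
  ([(102, 105)], [], [(98, 102, 186), (186, 102, 103), (114, 105, 186), (104, 105, 186), (102, 186, 105)]),
  ([(96, 161)], [186], [(97, 96, 187), (92, 96, 187), (102, 186, 187), (105, 186, 187), (96, 187, 186)]),
  ([(157, 162)], [], [(188, 157, 158), (188, 157, 156), (27, 162, 188), (165, 162, 188), (162, 188, 157)]),
  ([(161, 187)], [188], [(189, 161, 159), (189, 161, 160), (189, 187, 96), (189, 187, 186), (162, 188, 189), (157, 188, 189), (188, 189, 161), (188, 189, 187), (161, 189, 187)])]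

end Pool.Agent.N366.CC
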